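import Pool.Agent.Results.MP_c7a479_co.VariationalCubeExistence

set_option autoImplicit false

/-!
# MP_2d9e0f_co : deleting a coordinate from an all-or-nothing transform

A `(1, 3, 6)`-AONT exists and a `(1, 2, 6)`-AONT does not, so Q1 fails; for `t = 1` it fails for
no other pair `(s, v)`.

The inverse of a `(1, s, v)`-AONT is a variational cube of dimension `s` and order `v`, so both
halves come from the starting hand-in `MP_c7a479_co.VariationalCubeExistence`.
-/

namespace Pool.Agent.Results.MP_2d9e0f_co.DeletingCoordinateFails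

open Function Pool.Agent.H430R2.PermCubes

/-- `φ` is a `(t, s, v)`-all-or-nothing transform: `φ` is a bijection of `X^s`, `|X| = v`, and for
all `I, J ⊆ [s]` of size `t` the map `x ↦ (x_I, φ(x)_{[s] ∖ J})` is a bijection from `X^s` to
`X^I × X^([s] ∖ J)`. -/
def IsAONT (t s v : ℕ) (φ : (Fin s → Fin v) → (Fin s → Fin v)) : Prop :=
  Bijective φ ∧
  ∀ I J : Finset (Fin s), I.card = t → J.card = t →
    Bijective (fun x : Fin s → Fin v =>
      ((fun i => x i.1, fun j => φ x j.1) :
        ({i : Fin s // i ∈ I} → Fin v) × ({j : Fin s // j ∉ J} → Fin v)))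

/-- A `(t, s, v)`-all-or-nothing transform exists. -/
def HasAONT (t s v : ℕ) : Prop := ∃ φ : (Fin s → Fin v) → (Fin s → Fin v), IsAONT t s v φ

/-- the number of pairs `(x_I, y_{[s] ∖ J})` is `v ^ s` -/
theorem card_eq (s v : ℕ) (I J : Finset (Fin s)) (h : I.card = J.card) :
    Fintype.card (Fin s → Fin v) =
      Fintype.card (({i : Fin s // i ∈ I} → Fin v) × ({j : Fin s // j ∉ J} → Fin v)) := by
  have h1 : Fintype.card {i : Fin s // i ∈ I} = I.card := Fintype.card_coe I
  have h2 : Fintype.card {j : Fin s // j ∉ J} = s - J.card := by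
    rw [Fintype.card_subtype_compl, Fintype.card_fin, Fintype.card_coe]
  have h3 : J.card ≤ s := by
    simpa using Finset.card_le_univ J
  rw [Fintype.card_prod, Fintype.card_fun, Fintype.card_fun, Fintype.card_fun, h1, h2,
    Fintype.card_fin, Fintype.card_fin, ← pow_add]
  congr 1
  omega

/-- A `(1, s, v)`-AONT exists exactly when `s` permutation cubes of dimension `s` and order `v`
form a variational cube. -/
theorem exists_iff (s v : ℕ) :
    HasAONT 1 s v ↔ ∃ C : Fin s → (Fin s → Fin v) → Fin v, IsVariationalSet s v s C := by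
  constructor
  · rintro ⟨φ, hφ, h⟩
    let e := Equiv.ofBijective φ hφ
    have he : ∀ y, φ (e.symm y) = y := fun y => e.apply_symm_apply y
    refine ⟨fun i y => e.symm y i, ?_, ?_⟩
    · intro i j y
      rw [← Finite.injective_iff_bijective]
      intro a b hab
      have hinj := (h {i} {j} (Finset.card_singleton i) (Finset.card_singleton j)).1
      have : e.symm (update y j a) = e.symm (update y j b) := by
        apply hinj
        simp only [Prod.mk.injEq]
        refine ⟨?_, ?_⟩
        · funext k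
          have hk : k.1 = i := Finset.mem_singleton.1 k.2
          rw [hk]
          exact hab
        · funext k
          have hk : k.1 ≠ j := fun hk => k.2 (Finset.mem_singleton.2 hk)
          rw [he, he, update_of_ne hk, update_of_ne hk]
      have h2 := congrFun (e.symm.injective this) j
      simpa using h2
    · intro r hr
      rw [← Finite.injective_iff_bijective]
      intro x y hxy
      apply e.symm.injective
      funext i
      obtain ⟨k, rfl⟩ := Finite.injective_iff_surjective.1 hr i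
      exact congrFun hxy k
  · rintro ⟨C, hC, hB⟩
    let e := Equiv.ofBijective (fun (y : Fin s → Fin v) (i : Fin s) => C i y) (hB id injective_id)
    have he : ∀ x i, C i (e.symm x) = x i := fun x i => congrFun (e.apply_symm_apply x) i
    refine ⟨fun x => e.symm x, e.symm.bijective, ?_⟩
    intro I J hI hJ
    rw [Fintype.bijective_iff_injective_and_card]
    refine ⟨?_, card_eq s v I J (hI.trans hJ.symm)⟩
    obtain ⟨i, rfl⟩ := Finset.card_eq_one.1 hI
    obtain ⟨j, rfl⟩ := Finset.card_eq_one.1 hJ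
    intro x x' hx
    simp only [Prod.mk.injEq] at hx
    obtain ⟨h1, h2⟩ := hx
    have h1' : x i = x' i := congrFun h1 ⟨i, Finset.mem_singleton_self i⟩
    have h2' : ∀ k, k ≠ j → e.symm x k = e.symm x' k := fun k hk =>
      congrFun h2 ⟨k, fun h => hk (Finset.mem_singleton.1 h)⟩
    have hu : e.symm x' = update (e.symm x) j (e.symm x' j) := by
      funext k
      by_cases hk : k = j
      · subst hk; simp
      · rw [update_of_ne hk]; exact (h2' k hk).symm
    have hu' : e.symm x = update (e.symm x) j (e.symm x j) := by simp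
    have hinj := (hC i j (e.symm x)).1
    have : e.symm x j = e.symm x' j := by
      apply hinj
      show C i (update (e.symm x) j (e.symm x j)) = C i (update (e.symm x) j (e.symm x' j))
      rw [← hu, ← hu', he, he, h1']
    apply e.symm.injective
    rw [hu, ← this, ← hu']

/-- a `(1, 1, v)`-AONT exists for every `v` -/
theorem exists_one (v : ℕ) : HasAONT 1 1 v := by
  refine ⟨id, bijective_id, ?_⟩
  intro I J hI hJ
  rw [Fintype.bijective_iff_injective_and_card]
  refine ⟨?_, card_eq 1 v I J (hI.trans hJ.symm)⟩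
  intro x x' hx
  simp only [Prod.mk.injEq] at hx
  obtain ⟨i, rfl⟩ := Finset.card_eq_one.1 hI
  funext k
  have : k = i := Subsingleton.elim _ _
  subst this
  exact congrFun hx.1 ⟨k, Finset.mem_singleton_self k⟩

/-- over an alphabet with one letter every `(t, s, 1)`-AONT exists -/
theorem exists_alphabet_one (t s : ℕ) : HasAONT t s 1 := by
  refine ⟨id, bijective_id, ?_⟩
  intro I J hI hJ
  refine ⟨fun x y _ => Subsingleton.elim _ _, fun y => ⟨fun _ => 0, Subsingleton.elim _ _⟩⟩

/-- the existence of `(1, s, v)`-AONTs -/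
theorem exists_iff' (s v : ℕ) (hs : 1 ≤ s) (hv : 1 ≤ v) :
    HasAONT 1 s v ↔ s = 1 ∨ (v ≠ 2 ∧ ¬ (s = 2 ∧ v = 6)) := by
  rcases Nat.lt_or_ge 1 s with hs2 | hs1
  · rcases Nat.lt_or_ge 1 v with hv2 | hv1
    · rw [exists_iff,
        (Pool.Agent.Results.MP_c7a479_co.VariationalCubeExistence.result).2.2.1 s v hs2 hv2]
      constructor
      · exact fun h => Or.inr h
      · rintro (h | h)
        · omega
        · exact h
    · have : v = 1 := by omega
      subst this
      exact ⟨fun _ => Or.inr ⟨by norm_num, by omega⟩, fun _ => exists_alphabet_one 1 s⟩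
  · have : s = 1 := by omega
    subst this
    exact ⟨fun _ => Or.inl rfl, fun _ => exists_one v⟩

theorem result :
    -- a `(1, 3, 6)`-AONT exists and a `(1, 2, 6)`-AONT does not
    (∃ φ : (Fin 3 → Fin 6) → (Fin 3 → Fin 6), IsAONT 1 3 6 φ) ∧
    (¬ ∃ φ : (Fin 2 → Fin 6) → (Fin 2 → Fin 6), IsAONT 1 2 6 φ) ∧
    -- so the statement of Q1 is false
    (¬ ∀ v t s : ℕ, 1 ≤ v → 1 ≤ t → t + 1 ≤ s →
      (∃ φ : (Fin s → Fin v) → (Fin s → Fin v), IsAONT t s v φ) →
      ∃ φ : (Fin (s - 1) → Fin v) → (Fin (s - 1) → Fin v), IsAONT t (s - 1) v φ) ∧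
    -- for `t = 1` this is the only failure
    (∀ v s : ℕ, 1 ≤ v → 2 ≤ s →
      (((∃ φ : (Fin s → Fin v) → (Fin s → Fin v), IsAONT 1 s v φ) ∧
        ¬ ∃ φ : (Fin (s - 1) → Fin v) → (Fin (s - 1) → Fin v), IsAONT 1 (s - 1) v φ) ↔
        s = 3 ∧ v = 6)) ∧
    -- since a `(1, s, v)`-AONT exists exactly when `s = 1`, or `v ≠ 2` and `(s, v) ≠ (2, 6)`
    (∀ v s : ℕ, 1 ≤ v → 1 ≤ s →
      ((∃ φ : (Fin s → Fin v) → (Fin s → Fin v), IsAONT 1 s v φ) ↔
        s = 1 ∨ (v ≠ 2 ∧ ¬ (s = 2 ∧ v = 6)))) := by
  have key : ∀ v s : ℕ, 1 ≤ v → 1 ≤ s →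
      ((∃ φ : (Fin s → Fin v) → (Fin s → Fin v), IsAONT 1 s v φ) ↔
        s = 1 ∨ (v ≠ 2 ∧ ¬ (s = 2 ∧ v = 6))) := fun v s hv hs => exists_iff' s v hs hv
  have h3 : ∃ φ : (Fin 3 → Fin 6) → (Fin 3 → Fin 6), IsAONT 1 3 6 φ :=
    (key 6 3 (by norm_num) (by norm_num)).2 (Or.inr ⟨by norm_num, by omega⟩)
  have h2 : ¬ ∃ φ : (Fin 2 → Fin 6) → (Fin 2 → Fin 6), IsAONT 1 2 6 φ := by
    intro h
    have := (key 6 2 (by norm_num) (by norm_num)).1 h
    omega
  refine ⟨h3, h2, ?_, ?_, key⟩
  · intro h
    exact h2 (h 6 1 3 (by norm_num) le_rfl (by norm_num) h3)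
  · intro v s hv hs
    rw [key v s hv (by omega), key v (s - 1) hv (by omega)]
    constructor
    · rintro ⟨h1, h4⟩
      omega
    · rintro ⟨rfl, rfl⟩
      omega

end Pool.Agent.Results.MP_2d9e0f_co.DeletingCoordinateFails
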